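import Mathlib

set_option autoImplicit false

open Finset Filter

namespace Pool.Agent.H.MP_d352c9_an

lemma big_sum (B : ℕ) (K : ℝ) :
    ∃ S : Finset ℕ, (∀ p ∈ S, p.Prime ∧ B < p) ∧ K ≤ ∑ p ∈ S, (1 : ℝ) / p := by
  have h := not_summable_one_div_on_primes
  rw [← summable_nat_add_iff (B + 1)] at h
  have hn : ∀ n, 0 ≤ Set.indicator {p : ℕ | p.Prime} (fun n : ℕ => (1 : ℝ) / n) (n + (B + 1)) :=
    fun n => Set.indicator_nonneg (fun _ _ => by positivity) _
  have ht := (not_summable_iff_tendsto_nat_atTop_of_nonneg hn).1 h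
  obtain ⟨M, hM⟩ := (ht.eventually_ge_atTop K).exists
  refine ⟨((range M).image (· + (B + 1))).filter Nat.Prime, ?_, ?_⟩
  · intro p hp
    rw [mem_filter, mem_image] at hp
    obtain ⟨⟨a, -, rfl⟩, h2⟩ := hp
    exact ⟨h2, by omega⟩
  · rw [sum_filter, sum_image (fun a _ b _ h => by simpa using h)]
    refine hM.trans (le_of_eq (sum_congr rfl fun i _ => ?_))
    simp [Set.indicator]

lemma small_tot (B : ℕ) (ε : ℝ) (hε : 0 < ε) :
    ∃ Q : ℕ, Q ≠ 0 ∧ (∀ p ∈ Q.primeFactors, B < p) ∧ (Nat.totient Q : ℝ) ≤ ε * Q := by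
  obtain ⟨S, hS, hK⟩ := big_sum B (-Real.log ε)
  have hpf : (∏ p ∈ S, p).primeFactors = S := Nat.primeFactors_prod fun p hp => (hS p hp).1
  have h0 : (∏ p ∈ S, p) ≠ 0 := prod_ne_zero_iff.2 fun p hp => (hS p hp).1.ne_zero
  refine ⟨∏ p ∈ S, p, h0, by rw [hpf]; exact fun p hp => (hS p hp).2, ?_⟩
  have h1 := Nat.totient_eq_mul_prod_factors (∏ p ∈ S, p)
  rw [hpf] at h1
  have h2 : (Nat.totient (∏ p ∈ S, p) : ℝ) =
      ((∏ p ∈ S, p : ℕ) : ℝ) * ∏ p ∈ S, (1 - (p : ℝ)⁻¹) := by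
    have := congrArg (fun q : ℚ => (q : ℝ)) h1
    simpa using this
  have h3 : ∏ p ∈ S, (1 - (p : ℝ)⁻¹) ≤ ε := by
    calc ∏ p ∈ S, (1 - (p : ℝ)⁻¹) ≤ ∏ p ∈ S, Real.exp (-((1 : ℝ) / p)) := by
          refine prod_le_prod (fun p hp => ?_) (fun p _ => ?_)
          · have : (1 : ℝ) ≤ p := by exact_mod_cast (hS p hp).1.one_le
            have := inv_le_one_of_one_le₀ this
            linarith
          · have := Real.add_one_le_exp (-((1 : ℝ) / p))
            rw [one_div] at this ⊢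
            linarith
      _ = Real.exp (-∑ p ∈ S, (1 : ℝ) / p) := by rw [← Real.exp_sum, sum_neg_distrib]
      _ ≤ Real.exp (Real.log ε) := Real.exp_le_exp.2 (by linarith)
      _ = ε := Real.exp_log hε
  rw [h2, mul_comm]
  exact mul_le_mul_of_nonneg_right h3 (by positivity)

lemma cop_count (B : ℕ) (ε : ℝ) (hε : 0 < ε) :
    ∃ Q : ℕ, Q ≠ 0 ∧ (∀ p ∈ Q.primeFactors, B < p) ∧
      ∀ᶠ N : ℕ in atTop, (#{x ∈ Icc 1 N | Q.Coprime x} : ℝ) ≤ ε * N := by
  obtain ⟨Q, h0, hB, hQ⟩ := small_tot B (ε / 2) (by positivity)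
  refine ⟨Q, h0, hB, ?_⟩
  filter_upwards [eventually_ge_atTop Q] with N hN
  have h1 := Nat.Ico_filter_coprime_le 1 N h0
  have e : Ico 1 (1 + N) = Icc 1 N := by ext x; simp; omega
  rw [e] at h1
  have h2 : (#{x ∈ Icc 1 N | Q.Coprime x} : ℝ) ≤ Nat.totient Q * (((N / Q : ℕ) : ℝ) + 1) := by
    exact_mod_cast h1
  have hQ0 : (0 : ℝ) < Q := by positivity
  have h3 : ((N / Q : ℕ) : ℝ) * Q ≤ N := by exact_mod_cast Nat.div_mul_le_self N Q
  have h4 : (Q : ℝ) ≤ N := by exact_mod_cast hN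
  have h5 : (0 : ℝ) ≤ ((N / Q : ℕ) : ℝ) := by positivity
  calc _ ≤ (ε / 2 * Q) * (((N / Q : ℕ) : ℝ) + 1) :=
        h2.trans (mul_le_mul_of_nonneg_right hQ (by positivity))
    _ = ε / 2 * (((N / Q : ℕ) : ℝ) * Q + Q) := by ring
    _ ≤ ε / 2 * (N + N) := by gcongr
    _ = ε * N := by ring

lemma few (L : ℕ) : ∀ ε : ℝ, 0 < ε → ∃ B : ℕ, ∀ᶠ N : ℕ in atTop,
    (#{x ∈ Icc 1 N | #{p ∈ x.primeFactors | p ≤ B} < L} : ℝ) ≤ ε * N := by
  induction L with
  | zero =>
    intro ε hε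
    refine ⟨0, Eventually.of_forall fun N => ?_⟩
    simp; positivity
  | succ L ih =>
    intro ε hε
    obtain ⟨B, hB⟩ := ih (ε / 2) (by positivity)
    obtain ⟨Q, h0, hQB, hQ⟩ := cop_count B (ε / 2) (by positivity)
    refine ⟨max B Q, ?_⟩
    filter_upwards [hB, hQ] with N h1 h2
    have hsub : {x ∈ Icc 1 N | #{p ∈ x.primeFactors | p ≤ max B Q} < L + 1} ⊆
        {x ∈ Icc 1 N | #{p ∈ x.primeFactors | p ≤ B} < L} ∪ {x ∈ Icc 1 N | Q.Coprime x} := by
      intro x hx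
      rw [mem_filter] at hx
      rw [mem_union, mem_filter, mem_filter]
      by_contra hc
      push Not at hc
      have c1 := hc.1 hx.1
      have c2 := hc.2 hx.1
      obtain ⟨p, hp, hpQ, hpx⟩ := Nat.Prime.not_coprime_iff_dvd.1 c2
      have hx0 : x ≠ 0 := by have := (mem_Icc.1 hx.1).1; omega
      have hpB : B < p := hQB p (Nat.mem_primeFactors.2 ⟨hp, hpQ, h0⟩)
      have hs : insert p {p ∈ x.primeFactors | p ≤ B} ⊆ {p ∈ x.primeFactors | p ≤ max B Q} := by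
        intro q hq
        rw [mem_insert] at hq
        rw [mem_filter]
        rcases hq with rfl | hq
        · exact ⟨Nat.mem_primeFactors.2 ⟨hp, hpx, hx0⟩,
            (Nat.le_of_dvd (Nat.pos_of_ne_zero h0) hpQ).trans (le_max_right _ _)⟩
        · rw [mem_filter] at hq
          exact ⟨hq.1, hq.2.trans (le_max_left _ _)⟩
      have hc := card_le_card hs
      rw [card_insert_of_notMem (by rw [mem_filter]; omega)] at hc
      omega
    have h3 := (card_le_card hsub).trans (card_union_le _ _)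
    have h4 : (#{x ∈ Icc 1 N | #{p ∈ x.primeFactors | p ≤ max B Q} < L + 1} : ℝ) ≤
        #{x ∈ Icc 1 N | #{p ∈ x.primeFactors | p ≤ B} < L} + #{x ∈ Icc 1 N | Q.Coprime x} := by
      exact_mod_cast h3
    linarith

lemma few_Omega (L : ℕ) (ε : ℝ) (hε : 0 < ε) : ∀ᶠ N : ℕ in atTop,
    (#{x ∈ Icc 1 N | ArithmeticFunction.cardFactors x ≤ L} : ℝ) ≤ ε * N := by
  obtain ⟨B, hB⟩ := few (L + 1) ε hε
  filter_upwards [hB] with N hN
  refine le_trans ?_ hN
  have : {x ∈ Icc 1 N | ArithmeticFunction.cardFactors x ≤ L} ⊆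
      {x ∈ Icc 1 N | #{p ∈ x.primeFactors | p ≤ B} < L + 1} := by
    intro x hx
    rw [mem_filter] at hx ⊢
    refine ⟨hx.1, ?_⟩
    have h1 : #{p ∈ x.primeFactors | p ≤ B} ≤ #x.primeFactors := card_filter_le _ _
    have h2 : #x.primeFactors ≤ ArithmeticFunction.cardFactors x := by
      rw [ArithmeticFunction.cardFactors_apply, Nat.primeFactors]
      exact List.toFinset_card_le _
    omega
  exact_mod_cast card_le_card this

/-- few pairs have a value of the linear form with few prime factors -/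
lemma few_pairs (a b L : ℕ) (ha : 1 ≤ a) : ∀ᶠ N : ℕ in atTop,
    (#{q ∈ Icc 1 N ×ˢ Icc 1 N | ArithmeticFunction.cardFactors (a * q.1 + b * q.2) ≤ L} : ℝ) ≤
      (N : ℝ) ^ 2 / 4 := by
  have hab : (0 : ℝ) < (a + b : ℕ) := by positivity
  have h := few_Omega L (1 / (4 * (a + b : ℕ))) (by positivity)
  have ht : Tendsto (fun N : ℕ => (a + b) * N) atTop atTop :=
    tendsto_atTop_mono (fun N => Nat.le_mul_of_pos_left N (by omega)) tendsto_id
  filter_upwards [ht.eventually h] with N hN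
  set G := {x ∈ Icc 1 ((a + b) * N) | ArithmeticFunction.cardFactors x ≤ L} with hG
  have h1 : #{q ∈ Icc 1 N ×ˢ Icc 1 N | ArithmeticFunction.cardFactors (a * q.1 + b * q.2) ≤ L} ≤
      #(G ×ˢ Icc 1 N) := by
    refine card_le_card_of_injOn (fun q => (a * q.1 + b * q.2, q.2)) ?_ ?_
    · intro q hq
      simp only [coe_filter, mem_product, mem_Icc, Set.mem_ofPred_eq] at hq
      simp only [coe_product, Set.mem_prod, hG, coe_filter, mem_Icc, Set.mem_ofPred_eq, coe_Icc,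
        Set.mem_Icc]
      refine ⟨⟨⟨?_, ?_⟩, hq.2⟩, hq.1.2⟩
      · have := Nat.mul_le_mul ha hq.1.1.1
        omega
      · have := Nat.mul_le_mul_left a hq.1.1.2
        have := Nat.mul_le_mul_left b hq.1.2.2
        rw [add_mul]; omega
    · intro q _ q' _ h
      simp only [Prod.mk.injEq] at h
      obtain ⟨h1, h2⟩ := h
      rw [h2] at h1
      exact Prod.ext (Nat.eq_of_mul_eq_mul_left (by omega) (Nat.add_right_cancel h1)) h2
  rw [card_product, Nat.card_Icc, Nat.add_sub_cancel] at h1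
  have h2 : (#{q ∈ Icc 1 N ×ˢ Icc 1 N |
      ArithmeticFunction.cardFactors (a * q.1 + b * q.2) ≤ L} : ℝ) ≤ #G * N := by
    exact_mod_cast h1
  have h3 : (#G : ℝ) ≤ N / 4 := by
    refine hN.trans (le_of_eq ?_)
    rw [Nat.cast_mul]; field_simp
  calc _ ≤ (#G : ℝ) * N := h2
    _ ≤ N / 4 * N := by gcongr
    _ = _ := by ring

end Pool.Agent.H.MP_d352c9_an
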