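import Mathlib
import Pool.Agent.H.MP_d352c9_an.A

set_option autoImplicit false

open Finset Filter MeasureTheory Topology

namespace Pool.Agent.H.MP_d352c9_an

def XS : Set (ℕ → Bool) :=
  {y | ∀ i j k, i < j → j < k → y i = y (i + 1) → y j = y (j + 1) → y k = y (k + 1) →
    2 * j < i + k}

lemma clopen_def (i : ℕ) : IsClopen {y : ℕ → Bool | y i = y (i + 1)} := by
  have hc : Continuous fun y : ℕ → Bool => (y i, y (i + 1)) := by fun_prop
  exact (isClopen_discrete {q : Bool × Bool | q.1 = q.2}).preimage hc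

lemma XS_closed : IsClosed XS := by
  have : XS = ⋂ i, ⋂ j, ⋂ k, ⋂ _ : i < j, ⋂ _ : j < k, ⋂ _ : ¬ 2 * j < i + k,
      ({y : ℕ → Bool | y i = y (i + 1)} ∩ {y | y j = y (j + 1)} ∩ {y | y k = y (k + 1)})ᶜ := by
    ext y
    simp only [XS, Set.mem_ofPred_eq, Set.mem_iInter, Set.mem_compl_iff, Set.mem_inter_iff]
    constructor
    · intro h i j k h1 h2 h3 h4
      exact h3 (h i j k h1 h2 h4.1.1 h4.1.2 h4.2)
    · intro h i j k h1 h2 h3 h4 h5
      by_contra h6
      exact h i j k h1 h2 h6 ⟨⟨h3, h4⟩, h5⟩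
  rw [this]
  refine isClosed_iInter fun i => isClosed_iInter fun j => isClosed_iInter fun k =>
    isClosed_iInter fun _ => isClosed_iInter fun _ => isClosed_iInter fun _ => ?_
  exact (((clopen_def i).inter (clopen_def j)).inter (clopen_def k)).compl.isClosed

abbrev X := XS

instance : CompactSpace X := isCompact_iff_compactSpace.1 XS_closed.isCompact

def T (y : X) : X := ⟨fun n => y.1 (n + 1), fun i j k h1 h2 h3 h4 h5 => by
  have := y.2 (i + 1) (j + 1) (k + 1) (by omega) (by omega) h3 h4 h5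
  omega⟩

lemma T_cont : Continuous T := by
  refine Continuous.subtype_mk (continuous_pi fun n => ?_) _
  exact (continuous_apply (n + 1)).comp continuous_subtype_val

lemma T_iter (n : ℕ) (y : X) (i : ℕ) : (T^[n] y).1 i = y.1 (i + n) := by
  induction n generalizing i with
  | zero => rfl
  | succ n ih =>
    rw [Function.iterate_succ_apply']
    show (T^[n] y).1 (i + 1) = _
    rw [ih, show i + 1 + n = i + (n + 1) by omega]

def alt (c : Bool) : X := ⟨fun n => xor c (decide (Odd n)), fun i j k _ _ h3 _ _ => by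
  exfalso
  simp only [Nat.odd_add_one] at h3
  by_cases h : Odd i <;> cases c <;> simp [h] at h3⟩

lemma T_alt (c : Bool) : T (alt c) = alt (!c) := by
  refine Subtype.ext (funext fun n => ?_)
  show xor c (decide (Odd (n + 1))) = xor (!c) (decide (Odd n))
  simp only [Nat.odd_add_one]
  by_cases h : Odd n <;> cases c <;> simp [h]

lemma alt_ne : alt false ≠ alt true := by
  intro h
  have := congrFun (congrArg Subtype.val h) 0
  simp [alt] at this

lemma eq_alt (y : X) (h : ∀ n, y.1 n ≠ y.1 (n + 1)) : y = alt false ∨ y = alt true := by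
  have : y = alt (y.1 0) := by
    refine Subtype.ext (funext fun n => ?_)
    show y.1 n = xor (y.1 0) (decide (Odd n))
    induction n with
    | zero => simp
    | succ n ih =>
      have h1 := h n
      rw [ih] at h1
      simp only [Nat.odd_add_one]
      by_cases h2 : Odd n <;> cases h3 : y.1 0 <;> cases h4 : y.1 (n + 1) <;>
        simp [h2, h3, h4] at h1 ⊢
  cases h0 : y.1 0
  · left; rw [this, h0]
  · right; rw [this, h0]

def D (i : ℕ) : Set X := {y | y.1 i = y.1 (i + 1)}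

lemma D_meas (i : ℕ) : MeasurableSet (D i) :=
  ((clopen_def i).preimage continuous_subtype_val).isOpen.measurableSet

lemma mem_D_iter (m i : ℕ) (y : X) : T^[m] y ∈ D i ↔ y ∈ D (i + m) := by
  simp only [D, Set.mem_ofPred_eq, T_iter]
  rw [show i + 1 + m = i + m + 1 by omega]

lemma null_of_no_return (μ : Measure X) [IsProbabilityMeasure μ] (hμ : MeasurePreserving T μ μ)
    (s : Set X) (hs : MeasurableSet s) (g : ℕ) (h : ∀ m, g < m → ∀ y ∈ s, T^[m] y ∉ s) :
    μ s = 0 := by
  by_contra h0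
  have := hμ.conservative.frequently_measure_inter_ne_zero hs.nullMeasurableSet h0
  obtain ⟨m, hm, hg⟩ := (this.and_eventually (eventually_gt_atTop g)).exists
  apply hm
  have : s ∩ T^[m] ⁻¹' s = ∅ :=
    Set.eq_empty_of_forall_notMem fun y hy => h m hg y hy.1 hy.2
  rw [this, measure_empty]

lemma D0_null (μ : Measure X) [IsProbabilityMeasure μ] (hμ : MeasurePreserving T μ μ) :
    μ (D 0) = 0 := by
  have h1 : ∀ g, μ (D 0 ∩ D (g + 1)) = 0 := by
    intro g
    refine null_of_no_return μ hμ _ ((D_meas _).inter (D_meas _)) (g + 1) fun m hm y hy hz => ?_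
    have a1 := (mem_D_iter m 0 y).1 hz.1
    have a2 := (mem_D_iter m (g + 1) y).1 hz.2
    have := y.2 0 (0 + m) (g + 1 + m) (by omega) (by omega) hy.1 a1 a2
    omega
  have h2 : μ (D 0 \ ⋃ g, D (g + 1)) = 0 := by
    refine null_of_no_return μ hμ _ ((D_meas _).diff (MeasurableSet.iUnion fun g => D_meas _)) 0
      fun m hm y hy hz => ?_
    have a1 := (mem_D_iter m 0 y).1 hz.1
    refine hy.2 (Set.mem_iUnion.2 ⟨m - 1, ?_⟩)
    rwa [show m - 1 + 1 = 0 + m by omega]
  have h3 : D 0 ⊆ (D 0 \ ⋃ g, D (g + 1)) ∪ ⋃ g, D 0 ∩ D (g + 1) := by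
    intro y hy
    by_cases h : y ∈ ⋃ g, D (g + 1)
    · right
      obtain ⟨g, hg⟩ := Set.mem_iUnion.1 h
      exact Set.mem_iUnion.2 ⟨g, hy, hg⟩
    · exact Or.inl ⟨hy, h⟩
  exact measure_mono_null h3 (measure_union_null h2 (measure_iUnion_null h1))

noncomputable def mu0 : Measure X :=
  (1 / 2 : ENNReal) • Measure.dirac (alt false) + (1 / 2 : ENNReal) • Measure.dirac (alt true)

instance : IsProbabilityMeasure mu0 := ⟨by
  simp [mu0, ENNReal.inv_two_add_inv_two]⟩

lemma mu0_map : mu0.map T = mu0 := by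
  have hm := T_cont.measurable
  rw [mu0, Measure.map_add _ _ hm, Measure.map_smul, Measure.map_smul,
    Measure.map_dirac' hm, Measure.map_dirac' hm, T_alt, T_alt, add_comm]
  rfl

lemma unique (μ : Measure X) [IsProbabilityMeasure μ] (h : μ.map T = μ) : μ = mu0 := by
  have hμ : MeasurePreserving T μ μ := ⟨T_cont.measurable, h⟩
  have h0 := D0_null μ hμ
  have h1 : ∀ n, μ (D n) = 0 := by
    intro n
    have e : D n = T^[n] ⁻¹' D 0 := by
      ext y; rw [Set.mem_preimage, mem_D_iter, zero_add]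
    rw [e, (hμ.iterate n).measure_preimage (D_meas 0).nullMeasurableSet, h0]
  have h2 : ∀ᵐ y ∂μ, y = alt false ∨ y = alt true := by
    have : ∀ᵐ y ∂μ, ∀ n, y ∉ D n := ae_all_iff.2 fun n => measure_eq_zero_iff_ae_notMem.1 (h1 n)
    filter_upwards [this] with y hy
    exact eq_alt y hy
  have h3 := (Measure.ae_eq_or_eq_iff_eq_dirac_add_dirac alt_ne).1 h2
  have h4 : μ {alt false} = μ {alt true} := by
    have a := hμ.measure_preimage (measurableSet_singleton (alt false)).nullMeasurableSet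
    rw [← a]
    refine measure_congr ?_
    filter_upwards [h2] with y hy
    rcases hy with rfl | rfl
    · have n1 : alt false ∉ T ⁻¹' {alt false} := by
        rw [Set.mem_preimage, T_alt]; exact fun h => alt_ne (Set.mem_singleton_iff.1 h).symm
      have n2 : alt false ∉ ({alt true} : Set X) := fun h => alt_ne (Set.mem_singleton_iff.1 h)
      exact propext ⟨fun h => (n1 h).elim, fun h => (n2 h).elim⟩
    · have n1 : alt true ∈ T ⁻¹' {alt false} := by
        rw [Set.mem_preimage, T_alt]; rfl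
      exact propext ⟨fun _ => rfl, fun _ => n1⟩
  have h5 : μ {alt false} + μ {alt true} = 1 := by
    have := congrArg (fun ν : Measure X => ν Set.univ) h3
    simpa using this.symm
  have h6 : μ {alt true} = 1 / 2 := by
    rw [h4, ← two_mul] at h5
    rw [ENNReal.eq_div_iff (by norm_num) (by norm_num)]
    exact h5
  rw [h3, h4, h6, mu0]

/-- the observable -/
def F0 : C(X, ℂ) := ⟨fun y => if y.1 0 = true then 1 else 0, by
  have h1 : Continuous fun c : Bool => if c = true then (1 : ℂ) else 0 := continuous_of_discreteTopology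
  exact h1.comp ((continuous_apply 0).comp continuous_subtype_val)⟩

/-- a point whose even coordinates switch value on very long stretches -/
lemma point (d : ℕ → ℕ) (hd : ∀ k, 2 * d k < d (k + 1)) :
    ∃ y : X, ∀ k i, d k < i → i ≤ d (k + 1) → Even i → y.1 i = decide (Even k) := by
  have hm : StrictMono d := strictMono_nat_of_lt_succ fun k => by have := hd k; omega
  have hex : ∀ i, ∃ k, i ≤ d k := fun i => ⟨i, hm.le_apply⟩
  have hc : ∀ i, (∀ k, d k ≠ i) → Nat.find (hex (i + 1)) = Nat.find (hex i) := by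
    intro i hi
    refine le_antisymm (Nat.find_min' _ ?_) (Nat.find_min' _ ?_)
    · have := Nat.find_spec (hex i)
      have := hi (Nat.find (hex i))
      omega
    · have := Nat.find_spec (hex (i + 1))
      omega
  have hdef : ∀ i, xor (decide (Odd (Nat.find (hex i)))) (decide (Odd i)) =
      xor (decide (Odd (Nat.find (hex (i + 1))))) (decide (Odd (i + 1))) → ∃ k, d k = i := by
    intro i h
    by_contra hn
    push Not at hn
    rw [hc i hn] at h
    simp only [Nat.odd_add_one] at h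
    by_cases h1 : Odd i <;> by_cases h2 : Odd (Nat.find (hex i)) <;> simp [h1, h2] at h
  refine ⟨⟨fun i => xor (decide (Odd (Nat.find (hex i)))) (decide (Odd i)), ?_⟩, ?_⟩
  · intro i j k h1 h2 _ h4 h5
    obtain ⟨b, rfl⟩ := hdef j h4
    obtain ⟨c, rfl⟩ := hdef k h5
    have h6 : b < c := hm.lt_iff_lt.1 h2
    have h7 : d (b + 1) ≤ d c := hm.monotone h6
    have := hd b
    omega
  · intro k i h1 h2 h3
    have e : Nat.find (hex i) = k + 1 := by
      rw [Nat.find_eq_iff]
      refine ⟨h2, fun n hn => ?_⟩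
      have : d n ≤ d k := hm.monotone (by omega)
      omega
    show xor (decide (Odd (Nat.find (hex i)))) (decide (Odd i)) = _
    rw [e]
    have h4 : ¬ Odd i := Nat.not_odd_iff_even.2 h3
    simp [h4, Nat.odd_add_one, Nat.not_odd_iff_even]

/-- the main divergence lemma -/
lemma diverge (W : ℕ → ℕ → ℕ) (a b : ℕ) (ha : 1 ≤ a)
    (hW : ∀ m n, 1 ≤ m → 1 ≤ n → Even (W m n) ∧
      ArithmeticFunction.cardFactors (a * m + b * n) ≤ W m n) :
    ∃ y : X, ¬ ∃ L : ℂ, Tendsto (fun N : ℕ =>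
      (∑ m ∈ Icc 1 N, ∑ n ∈ Icc 1 N, F0 (T^[W m n] y)) / (N : ℂ) ^ 2) atTop (𝓝 L) := by
  have h1 : ∀ L : ℕ, ∃ N : ℕ, L < N ∧
      (#{q ∈ Icc 1 N ×ˢ Icc 1 N | ArithmeticFunction.cardFactors (a * q.1 + b * q.2) ≤ L} : ℝ) ≤
        (N : ℝ) ^ 2 / 4 := fun L => ((eventually_gt_atTop L).and (few_pairs a b L ha)).exists
  choose Nf hN1 hN2 using h1
  obtain ⟨d, hd⟩ : ∃ d : ℕ → ℕ, ∀ k, d (k + 1) =
      2 * d k + 1 + (Icc 1 (Nf (d k)) ×ˢ Icc 1 (Nf (d k))).sup (fun q => W q.1 q.2) :=
    ⟨fun k => Nat.rec 0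
      (fun _ x => 2 * x + 1 + (Icc 1 (Nf x) ×ˢ Icc 1 (Nf x)).sup (fun q => W q.1 q.2)) k,
      fun _ => rfl⟩
  have hd2 : ∀ k, 2 * d k < d (k + 1) := fun k => by rw [hd]; omega
  have hm : StrictMono d := strictMono_nat_of_lt_succ fun k => by have := hd2 k; omega
  obtain ⟨y, hy⟩ := point d hd2
  refine ⟨y, ?_⟩
  rintro ⟨L, hL⟩
  have hre := (Complex.continuous_re.tendsto L).comp hL
  have hinf : Tendsto (fun k => Nf (d k)) atTop atTop :=
    tendsto_atTop_mono (fun k => (hm.le_apply.trans (hN1 (d k)).le)) tendsto_id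
  -- value of the averages
  have hval : ∀ N : ℕ, ((∑ m ∈ Icc 1 N, ∑ n ∈ Icc 1 N, F0 (T^[W m n] y)) / (N : ℂ) ^ 2).re =
      (#{q ∈ Icc 1 N ×ˢ Icc 1 N | y.1 (W q.1 q.2) = true} : ℝ) / (N : ℝ) ^ 2 := by
    intro N
    have : (∑ m ∈ Icc 1 N, ∑ n ∈ Icc 1 N, F0 (T^[W m n] y)) =
        ((#{q ∈ Icc 1 N ×ˢ Icc 1 N | y.1 (W q.1 q.2) = true} : ℝ) : ℂ) := by
      rw [← sum_product' (f := fun m n => F0 (T^[W m n] y)), card_filter]
      push_cast
      refine sum_congr rfl fun q _ => ?_
      show (if (T^[W q.1 q.2] y).1 0 = true then (1 : ℂ) else 0) = _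
      rw [T_iter, zero_add]
      split_ifs <;> simp
    rw [this, ← Complex.ofReal_natCast N, ← Complex.ofReal_pow, ← Complex.ofReal_div,
      Complex.ofReal_re]
  have hbad : ∀ k, {q ∈ Icc 1 (Nf (d k)) ×ˢ Icc 1 (Nf (d k)) |
        ¬ y.1 (W q.1 q.2) = decide (Even k)} ⊆
      {q ∈ Icc 1 (Nf (d k)) ×ˢ Icc 1 (Nf (d k)) |
        ArithmeticFunction.cardFactors (a * q.1 + b * q.2) ≤ d k} := by
    intro k q hq
    rw [mem_filter] at hq ⊢
    refine ⟨hq.1, ?_⟩
    by_contra hc
    have hq1 := mem_product.1 hq.1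
    obtain ⟨e1, e2⟩ := hW q.1 q.2 (mem_Icc.1 hq1.1).1 (mem_Icc.1 hq1.2).1
    have e3 : W q.1 q.2 ≤ (Icc 1 (Nf (d k)) ×ˢ Icc 1 (Nf (d k))).sup (fun q => W q.1 q.2) :=
      le_sup (f := fun q : ℕ × ℕ => W q.1 q.2) hq.1
    exact hq.2 (hy k _ (by omega) (by rw [hd]; omega) e1)
  have hcnt : ∀ k, (#{q ∈ Icc 1 (Nf (d k)) ×ˢ Icc 1 (Nf (d k)) |
        ¬ y.1 (W q.1 q.2) = decide (Even k)} : ℝ) ≤ (Nf (d k) : ℝ) ^ 2 / 4 := fun k =>
    le_trans (by exact_mod_cast card_le_card (hbad k)) (hN2 (d k))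
  have hpos : ∀ k, (0 : ℝ) < (Nf (d k) : ℝ) ^ 2 := fun k => by
    have := hN1 (d k)
    have : 0 < Nf (d k) := by omega
    positivity
  have t1 : Tendsto (fun j : ℕ => 2 * j) atTop atTop :=
    tendsto_atTop_mono (fun j => by simp only [id]; omega) tendsto_id
  have t2 : Tendsto (fun j : ℕ => 2 * j + 1) atTop atTop :=
    tendsto_atTop_mono (fun j => by simp only [id]; omega) tendsto_id
  have u1 : 3 / 4 ≤ L.re := by
    refine ge_of_tendsto' (hre.comp (hinf.comp t1)) fun j => ?_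
    simp only [Function.comp]
    rw [hval, le_div_iff₀ (hpos _)]
    have c := hcnt (2 * j)
    have he : decide (Even (2 * j)) = true := by simp
    rw [he] at c
    have s := card_filter_add_card_filter_not (s := Icc 1 (Nf (d (2 * j))) ×ˢ Icc 1 (Nf (d (2 * j))))
      (fun q => y.1 (W q.1 q.2) = true)
    rw [card_product, Nat.card_Icc, Nat.add_sub_cancel] at s
    have s' : (#{q ∈ Icc 1 (Nf (d (2 * j))) ×ˢ Icc 1 (Nf (d (2 * j))) |
          y.1 (W q.1 q.2) = true} : ℝ) + #{q ∈ Icc 1 (Nf (d (2 * j))) ×ˢ Icc 1 (Nf (d (2 * j))) |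
          ¬ y.1 (W q.1 q.2) = true} = (Nf (d (2 * j)) : ℝ) * Nf (d (2 * j)) := by
      exact_mod_cast s
    nlinarith
  have u2 : L.re ≤ 1 / 4 := by
    refine le_of_tendsto' (hre.comp (hinf.comp t2)) fun j => ?_
    simp only [Function.comp]
    rw [hval, div_le_iff₀ (hpos _)]
    have c := hcnt (2 * j + 1)
    have he : decide (Even (2 * j + 1)) = false := by simp
    rw [he] at c
    simp only [Bool.not_eq_false] at c
    linarith
  linarith

end Pool.Agent.H.MP_d352c9_an
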